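import Mathlib

/-!
# Weight operators of direct factors

`E` is a ring with a complete orthogonal family of idempotents `e w`, `w` in the finite set `W` of
integers, `f` an idempotent of `E` whose weight-raising parts `e b * f * e a`, `a < b`, lie in a nil
ideal `Z`, `D = ∑ w • e w`.  Then `f D f` satisfies a polynomial equation with roots in `W`.
-/

set_option autoImplicit false

open Finset

namespace Pool.Agent.Y109

/-- A complete orthogonal family of idempotents indexed by the integers in `W`. -/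
structure IsWt {E : Type*} [Ring E] (W : Finset ℤ) (e : ℤ → E) : Prop where
  mul : ∀ a b, e a * e b = if a = b then e a else 0
  out : ∀ a, a ∉ W → e a = 0
  sum : ∑ a ∈ W, e a = 1

/-- The weight operator. -/
def wtOp {E : Type*} [Ring E] (W : Finset ℤ) (e : ℤ → E) : E := ∑ a ∈ W, a • e a

section ring

variable {E : Type*} [Ring E] {W : Finset ℤ} {e : ℤ → E} (he : IsWt W e) (Z : TwoSidedIdeal E)

/-- The element `r` lowers the weights by at least `k`, modulo the ideal `Z`. -/
def Lowers (e : ℤ → E) (Z : TwoSidedIdeal E) (k : ℤ) (r : E) : Prop :=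
  ∀ a b, a - k < b → e b * r * e a ∈ Z

variable {Z}

lemma Lowers.mono {k l : ℤ} {r : E} (h : Lowers e Z l r) (hkl : k ≤ l) : Lowers e Z k r :=
  fun a b hab => h a b (by omega)

lemma Lowers.add {k : ℤ} {r s : E} (hr : Lowers e Z k r) (hs : Lowers e Z k s) :
    Lowers e Z k (r + s) := fun a b hab => by
  rw [mul_add, add_mul]; exact Z.add_mem (hr a b hab) (hs a b hab)

lemma Lowers.neg {k : ℤ} {r : E} (hr : Lowers e Z k r) : Lowers e Z k (-r) := fun a b hab => by
  rw [mul_neg, neg_mul]; exact Z.neg_mem (hr a b hab)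

lemma Lowers.sub {k : ℤ} {r s : E} (hr : Lowers e Z k r) (hs : Lowers e Z k s) :
    Lowers e Z k (r - s) := by
  rw [sub_eq_add_neg]; exact hr.add hs.neg

lemma Lowers.of_mem {k : ℤ} {r : E} (hr : r ∈ Z) : Lowers e Z k r := fun _ _ _ =>
  Z.mul_mem_right _ _ (Z.mul_mem_left _ _ hr)

lemma Lowers.zero {k : ℤ} : Lowers e Z k 0 := Lowers.of_mem Z.zero_mem

include he

lemma Lowers.mul {k l : ℤ} {r s : E} (hr : Lowers e Z k r) (hs : Lowers e Z l s) :
    Lowers e Z (k + l) (r * s) := by
  intro a b hab
  have h1 : e b * (r * s) * e a = ∑ c ∈ W, (e b * r * e c) * (e c * s * e a) := by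
    calc e b * (r * s) * e a = e b * r * 1 * s * e a := by simp only [mul_assoc, one_mul]
      _ = ∑ c ∈ W, (e b * r * e c) * (e c * s * e a) := by
        rw [← he.sum, Finset.mul_sum, Finset.sum_mul, Finset.sum_mul]
        apply Finset.sum_congr rfl
        intro c _
        have : e c = e c * e c := by rw [he.mul, if_pos rfl]
        conv_lhs => rw [this]
        simp only [mul_assoc]
  rw [h1]
  refine sum_mem fun c _ => ?_
  by_cases h : c - k < b
  · exact Z.mul_mem_right _ _ (hr c b h)
  · exact Z.mul_mem_left _ _ (hs a c (by omega))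

lemma IsWt.wtOp_mul (a : ℤ) : wtOp W e * e a = a • e a := by
  rw [wtOp, Finset.sum_mul]
  by_cases ha : a ∈ W
  · rw [Finset.sum_eq_single a]
    · rw [smul_mul_assoc, he.mul, if_pos rfl]
    · intro b _ hb
      rw [smul_mul_assoc, he.mul, if_neg hb, smul_zero]
    · intro h
      exact absurd ha h
  · rw [he.out a ha, smul_zero]
    apply Finset.sum_eq_zero
    intro b _
    rw [mul_zero]

lemma IsWt.mul_wtOp (a : ℤ) : e a * wtOp W e = a • e a := by
  rw [wtOp, Finset.mul_sum]
  by_cases ha : a ∈ W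
  · rw [Finset.sum_eq_single a]
    · rw [mul_smul_comm, he.mul, if_pos rfl]
    · intro b _ hb
      rw [mul_smul_comm, he.mul, if_neg (Ne.symm hb), smul_zero]
    · intro h
      exact absurd ha h
  · rw [he.out a ha, smul_zero]
    apply Finset.sum_eq_zero
    intro b _
    rw [zero_mul]

lemma Lowers.one : Lowers e Z 0 (1 : E) := by
  intro a b hab
  rw [mul_one, he.mul, if_neg (by omega)]
  exact Z.zero_mem

lemma Lowers.wtOp : Lowers e Z 0 (wtOp W e) := by
  intro a b hab
  rw [he.mul_wtOp, smul_mul_assoc, he.mul, if_neg (by omega), smul_zero]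
  exact Z.zero_mem

lemma Lowers.comm {r : E} (hr : Lowers e Z 0 r) :
    Lowers e Z 1 (Pool.Agent.Y109.wtOp W e * r - r * Pool.Agent.Y109.wtOp W e) := by
  intro a b hab
  have h1 : e b * (Pool.Agent.Y109.wtOp W e * r - r * Pool.Agent.Y109.wtOp W e) * e a =
      (b - a) • (e b * r * e a) := by
    rw [mul_sub, sub_mul, ← mul_assoc, he.mul_wtOp, mul_assoc (e b) (r * _) (e a), mul_assoc r,
      he.wtOp_mul, sub_smul, smul_mul_assoc, smul_mul_assoc, mul_smul_comm, mul_smul_comm,
      mul_assoc]
  rw [h1]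
  by_cases h : a = b
  · rw [h, sub_self, zero_smul]; exact Z.zero_mem
  · exact Z.zsmul_mem _ (hr a b (by omega))

/-- The weights of `W` lie in an interval of length less than `n`. -/
lemma Lowers.mem_of_large {n : ℕ} (hn : ∀ a ∈ W, ∀ b ∈ W, a - n < b) {r : E}
    (hr : Lowers e Z n r) : r ∈ Z := by
  have h1 : r = ∑ b ∈ W, ∑ a ∈ W, e b * r * e a := by
    calc r = 1 * r * 1 := by simp
      _ = ∑ b ∈ W, ∑ a ∈ W, e b * r * e a := by
        rw [← he.sum, Finset.sum_mul, Finset.sum_mul]
        apply Finset.sum_congr rfl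
        intro b _
        rw [Finset.mul_sum]
  rw [h1]
  exact sum_mem fun b hb => sum_mem fun a ha => hr a b (hn a ha b hb)

lemma Lowers.pow {r : E} (hr : Lowers e Z 1 r) (n : ℕ) : Lowers e Z n (r ^ n) := by
  induction n with
  | zero => rw [pow_zero]; exact Lowers.one he
  | succ n ih =>
    rw [pow_succ]
    have := Lowers.mul he ih hr
    push_cast
    exact this

lemma Lowers.isNilpotent (hZ : ∀ z ∈ Z, IsNilpotent z) {r : E} (hr : Lowers e Z 1 r) :
    IsNilpotent r := by
  obtain ⟨n, hn⟩ : ∃ n : ℕ, ∀ a ∈ W, ∀ b ∈ W, a - n < b := by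
    refine ⟨(∑ a ∈ W, |a|).toNat + (∑ a ∈ W, |a|).toNat + 1, fun a ha b hb => ?_⟩
    have h1 : |a| ≤ ∑ a ∈ W, |a| := Finset.single_le_sum (fun _ _ => abs_nonneg _) ha
    have h2 : |b| ≤ ∑ a ∈ W, |a| := Finset.single_le_sum (fun _ _ => abs_nonneg _) hb
    have h3 := neg_abs_le b
    have h4 := le_abs_self a
    push_cast
    omega
  obtain ⟨m, hm⟩ := hZ _ (Lowers.mem_of_large he hn (Lowers.pow he hr n))
  exact ⟨n * m, by rw [pow_mul, hm]⟩

/-- The product of all `D - v`, `v ∈ W`, is zero. -/
lemma IsWt.prod_eq_zero : ((W.toList).map (fun v => wtOp W e - (v : ℤ) • (1 : E))).prod = 0 := by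
  have key : ∀ (l : List ℤ) (a : ℤ), a ∈ l →
      (l.map (fun v => wtOp W e - (v : ℤ) • (1 : E))).prod * e a = 0 := by
    intro l a
    induction l with
    | nil => intro h; simp at h
    | cons b l ih =>
      intro h
      have hc : ∀ l : List ℤ, (l.map (fun v => wtOp W e - (v : ℤ) • (1 : E))).prod * e a =
          (l.map (fun v => a - v)).prod • e a := by
        intro l
        induction l with
        | nil => simp
        | cons c l ih =>
          rw [List.map_cons, List.prod_cons, mul_assoc, ih, List.map_cons, List.prod_cons,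
            mul_smul_comm, sub_mul, he.wtOp_mul, smul_mul_assoc, one_mul, ← sub_smul, smul_smul,
            mul_comm]
      rw [hc]
      have : (((b :: l).map (fun v => a - v)).prod : ℤ) = 0 := by
        apply List.prod_eq_zero
        rw [List.mem_map]
        exact ⟨a, h, sub_self a⟩
      rw [this, zero_smul]
  have h2 : ∀ P : E, (∀ a ∈ W, P * e a = 0) → P = 0 := by
    intro P hP
    calc P = P * 1 := (mul_one _).symm
      _ = 0 := by
        rw [← he.sum, Finset.mul_sum]
        exact Finset.sum_eq_zero hP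
  exact h2 _ fun a ha => key _ a (Finset.mem_toList.2 ha)

end ring

section main

variable {E R : Type*} [Ring E] [Ring R] {W : Finset ℤ} {e : ℤ → E} (he : IsWt W e)
  {Z : TwoSidedIdeal E} (hZ : ∀ z ∈ Z, IsNilpotent z) (φ : R →+ E)
  (hφ : ∀ r s, φ (r * s) = φ r * φ s) (hf : Lowers e Z 0 (φ 1))
  {x : R} (hx : φ x = φ 1 * wtOp W e * φ 1)

include he hφ hf hx

/-- Modulo elements which lower the weights, the products of the `x - v` are those of `D - v`. -/
lemma lowers_prod (l : List ℤ) :
    Lowers e Z 1 (φ ((l.map (fun v => x - (v : ℤ) • (1 : R))).prod) -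
      (l.map (fun v => wtOp W e - (v : ℤ) • (1 : E))).prod * φ 1) ∧
    Lowers e Z 0 (φ ((l.map (fun v => x - (v : ℤ) • (1 : R))).prod)) := by
  have h11 : φ 1 * φ 1 = φ 1 := by rw [← hφ, one_mul]
  have hy : Lowers e Z 1 (φ x - wtOp W e * φ 1) := by
    have h1 : φ x - wtOp W e * φ 1 = -((wtOp W e * φ 1 - φ 1 * wtOp W e) * φ 1) := by
      rw [hx, sub_mul, mul_assoc (wtOp W e), h11, neg_sub]
    rw [h1]
    have h2 := Lowers.mul he (Lowers.comm he hf) hf
    rw [add_zero] at h2
    exact h2.neg
  have hy0 : Lowers e Z 0 (φ x) := by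
    rw [hx]
    have h2 := Lowers.mul he (Lowers.mul he hf (Lowers.wtOp he)) hf
    simpa using h2
  induction l with
  | nil =>
    simp only [List.map_nil, List.prod_nil, one_mul, sub_self]
    exact ⟨Lowers.zero, hf⟩
  | cons v l ih =>
    obtain ⟨ih1, ih2⟩ := ih
    simp only [List.map_cons, List.prod_cons]
    set zl := (l.map (fun v => x - (v : ℤ) • (1 : R))).prod with hzl
    set ql := (l.map (fun v => wtOp W e - (v : ℤ) • (1 : E))).prod with hql
    have h1 : φ ((x - (v : ℤ) • (1 : R)) * zl) = (φ x - v • φ 1) * φ zl := by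
      rw [hφ, map_sub, map_zsmul]
    have h1z : φ 1 * φ zl = φ zl := by rw [← hφ, one_mul]
    refine ⟨?_, ?_⟩
    · have h2 : φ ((x - (v : ℤ) • (1 : R)) * zl) - (wtOp W e - (v : ℤ) • (1 : E)) * ql * φ 1 =
          (φ x - wtOp W e * φ 1) * φ zl + (wtOp W e - (v : ℤ) • (1 : E)) * (φ zl - ql * φ 1) := by
        have e1 : (φ x - wtOp W e * φ 1) * φ zl = φ x * φ zl - wtOp W e * φ zl := by
          rw [sub_mul, mul_assoc, h1z]
        have e2 : (φ x - v • φ 1) * φ zl = φ x * φ zl - v • φ zl := by
          rw [sub_mul, smul_mul_assoc, h1z]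
        rw [h1, e2, e1]
        simp only [sub_mul, mul_sub, smul_mul_assoc, one_mul, mul_assoc]
        abel
      rw [h2]
      have h3 := Lowers.mul he hy ih2
      rw [add_zero] at h3
      have h4 : Lowers e Z 0 (wtOp W e - (v : ℤ) • (1 : E)) := by
        apply Lowers.sub (Lowers.wtOp he)
        intro a b hab
        rw [mul_smul_comm, smul_mul_assoc]
        exact Z.zsmul_mem _ (Lowers.one he a b hab)
      have h5 := Lowers.mul he h4 ih1
      rw [zero_add] at h5
      exact h3.add h5
    · rw [h1]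
      have h4 : Lowers e Z 0 (φ x - v • φ 1) := by
        apply Lowers.sub hy0
        intro a b hab
        rw [mul_smul_comm, smul_mul_assoc]
        exact Z.zsmul_mem _ (hf a b hab)
      have := Lowers.mul he h4 ih2
      rwa [add_zero] at this

include hZ

/-- The weight operator of a direct factor is algebraic. -/
theorem exists_pow_eq_zero (hinj : Function.Injective φ) :
    ∃ n : ℕ, ((W.toList.map (fun v => x - (v : ℤ) • (1 : R))).prod) ^ n = 0 := by
  have h1 := (lowers_prod he φ hφ hf hx W.toList).1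
  rw [he.prod_eq_zero, zero_mul, sub_zero] at h1
  obtain ⟨n, hn⟩ := Lowers.isNilpotent he hZ h1
  refine ⟨n + 1, hinj ?_⟩
  have h2 : ∀ (r : R) (m : ℕ), φ (r ^ (m + 1)) = φ r ^ (m + 1) := by
    intro r m
    induction m with
    | zero => simp
    | succ m ih => rw [pow_succ, hφ, ih, pow_succ (φ r) (m + 1)]
  rw [h2, pow_succ, hn, zero_mul, map_zero]

end main

end Pool.Agent.Y109
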