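import Mathlib
import Pool.Agent.Y109.Ring

/-!
# Idempotents from an algebraic weight operator
-/

set_option autoImplicit false

open Finset Polynomial

namespace Pool.Agent.Y109

/-- Polynomials which are close to `1` at `v` and to `0` at the other elements of `W`. -/
lemma exists_polys (W : Finset ℤ) (n : ℕ) : ∃ q : ℤ → ℚ[X], ∀ v ∈ W, ∀ w ∈ W,
    (X - C (w : ℚ)) ^ n ∣ q v - (if v = w then 1 else 0) := by
  have h1 : Pairwise (Function.onFun IsCoprime
      (fun w : W => Ideal.span {((X - C ((w : ℤ) : ℚ)) ^ n : ℚ[X])})) := by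
    intro a b hab
    rw [Function.onFun, Ideal.isCoprime_span_singleton_iff]
    apply IsCoprime.pow
    apply isCoprime_X_sub_C_of_isUnit_sub
    apply IsUnit.mk0
    rw [sub_ne_zero]
    intro h
    apply hab
    apply Subtype.ext
    exact_mod_cast h
  have h2 : ∀ v : ℤ, ∃ q : ℚ[X], ∀ w : W, q - (if v = (w : ℤ) then 1 else 0) ∈
      Ideal.span {((X - C ((w : ℤ) : ℚ)) ^ n : ℚ[X])} := fun v =>
    Ideal.exists_forall_sub_mem_ideal h1 (fun w : W => if v = (w : ℤ) then 1 else 0)
  choose q hq using h2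
  refine ⟨q, fun v _ w hw => ?_⟩
  have := hq v ⟨w, hw⟩
  rwa [Ideal.mem_span_singleton] at this

section algebraic

variable {R : Type*} [Ring R] [Algebra ℚ R] {x : R} {W : Finset ℤ} {n : ℕ}

lemma aeval_prod_eq (x : R) (W : Finset ℤ) :
    aeval x (∏ w ∈ W, (X - C (w : ℚ))) =
      (W.toList.map (fun v => x - (v : ℤ) • (1 : R))).prod := by
  rw [← Finset.prod_map_toList, map_list_prod, List.map_map]
  congr 1
  apply List.map_congr_left
  intro v _
  simp only [Function.comp_apply, map_sub, aeval_X, aeval_C]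
  rw [zsmul_one]
  congr 1
  simp

lemma aeval_eq_zero (hx : aeval x (∏ w ∈ W, (X - C (w : ℚ))) ^ n = 0) {f : ℚ[X]}
    (hf : ∀ w ∈ W, (X - C (w : ℚ)) ^ n ∣ f) : aeval x f = 0 := by
  have h1 : (∏ w ∈ W, (X - C (w : ℚ)) ^ n) ∣ f := by
    apply Finset.prod_dvd_of_coprime
    · intro a _ b _ hab
      apply IsCoprime.pow
      apply isCoprime_X_sub_C_of_isUnit_sub
      apply IsUnit.mk0
      rw [sub_ne_zero]
      exact_mod_cast hab
    · exact hf
  obtain ⟨g, hg⟩ := h1
  rw [hg, map_mul, Finset.prod_pow, map_pow, hx, zero_mul]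

/-- The orthogonal idempotents given by an algebraic weight operator. -/
theorem exists_idem (hn : 0 < n) (hx : aeval x (∏ w ∈ W, (X - C (w : ℚ))) ^ n = 0) :
    ∃ q : ℤ → ℚ[X], (∀ v ∈ W, ∀ w ∈ W, ∃ r : ℚ[X],
        q v = r * (X - C (w : ℚ)) + (if v = w then 1 else 0)) ∧
      (∀ v ∈ W, ∀ w ∈ W, aeval x (q v) * aeval x (q w) = if v = w then aeval x (q v) else 0) ∧
      ∑ v ∈ W, aeval x (q v) = 1 := by
  obtain ⟨q, hq⟩ := exists_polys W n
  refine ⟨q, fun v hv w hw => ?_, fun v hv w hw => ?_, ?_⟩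
  · obtain ⟨r, hr⟩ := hq v hv w hw
    obtain ⟨m, rfl⟩ : ∃ m, n = m + 1 := ⟨n - 1, by omega⟩
    refine ⟨(X - C (w : ℚ)) ^ m * r, ?_⟩
    rw [sub_eq_iff_eq_add] at hr
    rw [hr, pow_succ]
    ring
  · rw [← map_mul]
    have h1 : ∀ u ∈ W, (X - C (u : ℚ)) ^ n ∣ q v * q w - (if v = w then q v else 0) := by
      intro u hu
      obtain ⟨r, hr⟩ := hq v hv u hu
      obtain ⟨s, hs⟩ := hq w hw u hu
      rw [sub_eq_iff_eq_add] at hr hs
      rw [hr, hs]
      by_cases h1 : v = w
      · subst h1
        rw [if_pos rfl]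
        by_cases h2 : v = u
        · subst h2
          rw [if_pos rfl]
          exact ⟨(X - C (v : ℚ)) ^ n * r * s + s, by ring⟩
        · rw [if_neg h2]
          exact ⟨(X - C (u : ℚ)) ^ n * r * s - r, by ring⟩
      · rw [if_neg h1]
        by_cases h2 : v = u
        · have h3 : w ≠ u := fun h => h1 (h2.trans h.symm)
          rw [if_pos h2, if_neg h3]
          exact ⟨(X - C (u : ℚ)) ^ n * r * s + s, by ring⟩
        · rw [if_neg h2]
          by_cases h3 : w = u
          · rw [if_pos h3]
            exact ⟨(X - C (u : ℚ)) ^ n * r * s + r, by ring⟩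
          · rw [if_neg h3]
            exact ⟨(X - C (u : ℚ)) ^ n * r * s, by ring⟩
    have h2 := aeval_eq_zero hx h1
    rw [map_sub, sub_eq_zero] at h2
    rw [h2]
    split_ifs
    · rfl
    · exact map_zero _
  · rw [← map_sum]
    have h1 : ∀ u ∈ W, (X - C (u : ℚ)) ^ n ∣ (∑ v ∈ W, q v) - 1 := by
      intro u hu
      have h2 : (∑ v ∈ W, q v) - 1 = ∑ v ∈ W, (q v - (if v = u then 1 else 0)) := by
        rw [Finset.sum_sub_distrib, Finset.sum_ite_eq' W u, if_pos hu]
      rw [h2]
      exact Finset.dvd_sum fun v hv => hq v hv u hu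
    have h2 := aeval_eq_zero hx h1
    rwa [map_sub, sub_eq_zero, map_one] at h2

end algebraic

section factor

variable {E : Type*} [Ring E] [Algebra ℚ E] {R : Type*} [Ring R] [Algebra ℚ R]
  {W : Finset ℤ} {e : ℤ → E} (he : IsWt W e) {Z : TwoSidedIdeal E}

lemma Lowers.qsmul {k : ℤ} {r : E} (hr : Lowers e Z k r) (c : ℚ) : Lowers e Z k (c • r) := by
  intro a b hab
  rw [mul_smul_comm, smul_mul_assoc, Algebra.smul_def]
  exact Z.mul_mem_left _ _ (hr a b hab)

include he

lemma IsWt.aeval_wtOp (q : ℚ[X]) (a : ℤ) :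
    aeval (wtOp W e) q * e a = (q.eval (a : ℚ)) • e a := by
  induction q using Polynomial.induction_on' with
  | add p q hp hq => rw [map_add, add_mul, hp, hq, eval_add, add_smul]
  | monomial n c =>
    rw [aeval_monomial, eval_monomial]
    have h1 : ∀ n : ℕ, wtOp W e ^ n * e a = ((a : ℚ) ^ n) • e a := by
      intro n
      induction n with
      | zero => simp
      | succ n ih =>
        rw [pow_succ', mul_assoc, ih, mul_smul_comm, he.wtOp_mul, ← Int.cast_smul_eq_zsmul ℚ,
          smul_smul, pow_succ]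
    rw [mul_assoc, h1, mul_smul_comm, ← Algebra.smul_def, smul_smul, mul_comm]

variable (φ : R →ₗ[ℚ] E) (hφ : ∀ r s, φ (r * s) = φ r * φ s) (hf : Lowers e Z 0 (φ 1))
  {x : R} (hx : φ x = φ 1 * wtOp W e * φ 1)

include hφ hf hx

lemma lowers_aeval (q : ℚ[X]) : Lowers e Z 1 (φ (aeval x q) - aeval (wtOp W e) q * φ 1) := by
  have h11 : φ 1 * φ 1 = φ 1 := by rw [← hφ, one_mul]
  have hy : Lowers e Z 1 (φ x - wtOp W e * φ 1) := by
    have h1 : φ x - wtOp W e * φ 1 = -((wtOp W e * φ 1 - φ 1 * wtOp W e) * φ 1) := by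
      rw [hx, sub_mul, mul_assoc (wtOp W e), h11, neg_sub]
    rw [h1]
    have h2 := Lowers.mul he (Lowers.comm he hf) hf
    rw [add_zero] at h2
    exact h2.neg
  have hD0 : ∀ n : ℕ, Lowers e Z 0 (wtOp W e ^ n) := by
    intro n
    induction n with
    | zero => rw [pow_zero]; exact Lowers.one he
    | succ n ih =>
      rw [pow_succ]
      have := Lowers.mul he ih (Lowers.wtOp he)
      rwa [add_zero] at this
  have hx0 : Lowers e Z 0 (φ x) := by
    have h2 := Lowers.mul he (Lowers.mul he hf (Lowers.wtOp he)) hf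
    rw [hx]
    simpa using h2
  have hxn0 : ∀ n : ℕ, Lowers e Z 0 (φ (x ^ n)) := by
    intro n
    induction n with
    | zero => rw [pow_zero]; exact hf
    | succ n ih =>
      rw [pow_succ, hφ]
      have := Lowers.mul he ih hx0
      rwa [add_zero] at this
  have hxn : ∀ n : ℕ, Lowers e Z 1 (φ (x ^ n) - wtOp W e ^ n * φ 1) := by
    intro n
    induction n with
    | zero =>
      rw [pow_zero, pow_zero, one_mul, sub_self]; exact Lowers.zero
    | succ n ih =>
      have h1z : φ 1 * φ (x ^ n) = φ (x ^ n) := by rw [← hφ, one_mul]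
      have h2 : φ (x ^ (n + 1)) - wtOp W e ^ (n + 1) * φ 1 =
          (φ x - wtOp W e * φ 1) * φ (x ^ n) +
            wtOp W e * (φ (x ^ n) - wtOp W e ^ n * φ 1) := by
        rw [pow_succ', hφ, sub_mul, mul_assoc (wtOp W e) (φ 1), h1z, mul_sub, ← mul_assoc,
          ← pow_succ']
        abel
      rw [h2]
      have h3 := Lowers.mul he hy (hxn0 n)
      rw [add_zero] at h3
      have h5 := Lowers.mul he (Lowers.wtOp he) ih
      rw [zero_add] at h5
      exact h3.add h5
  induction q using Polynomial.induction_on' with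
  | add p q hp hq =>
    have : φ (aeval x (p + q)) - aeval (wtOp W e) (p + q) * φ 1 =
        (φ (aeval x p) - aeval (wtOp W e) p * φ 1) +
          (φ (aeval x q) - aeval (wtOp W e) q * φ 1) := by
      rw [map_add, map_add, map_add, add_mul]; abel
    rw [this]
    exact hp.add hq
  | monomial n c =>
    have : φ (aeval x (monomial n c)) - aeval (wtOp W e) (monomial n c) * φ 1 =
        c • (φ (x ^ n) - wtOp W e ^ n * φ 1) := by
      rw [aeval_monomial, aeval_monomial, ← Algebra.smul_def, ← Algebra.smul_def, map_smul,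
        smul_mul_assoc, smul_sub]
    rw [this]
    exact (hxn n).qsmul c

/-- The idempotent `p` of `R` which corresponds to the weight `v` factors through `e v`. -/
theorem exists_factor (hZ : ∀ z ∈ Z, IsNilpotent z) {q : ℚ[X]} {v : ℤ}
    (hq : ∀ w ∈ W, q.eval (w : ℚ) = if v = w then 1 else 0)
    (hp : aeval x q * aeval x q = aeval x q) :
    ∃ s : E, φ (aeval x q) = s * e v * φ (aeval x q) := by
  set p := aeval x q with hpdef
  have h1 : aeval (wtOp W e) q = e v := by
    have h2 : ∀ P Q : E, (∀ a ∈ W, P * e a = Q * e a) → P = Q := by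
      intro P Q hP
      calc P = P * 1 := (mul_one _).symm
        _ = Q * 1 := by
          rw [← he.sum, Finset.mul_sum, Finset.mul_sum]
          exact Finset.sum_congr rfl hP
        _ = Q := mul_one _
    apply h2
    intro a ha
    rw [he.aeval_wtOp, hq a ha, he.mul]
    by_cases hva : v = a
    · rw [if_pos hva, if_pos hva, one_smul, hva]
    · rw [if_neg hva, if_neg hva, zero_smul]
  have h3 := lowers_aeval he φ hφ hf hx q
  rw [h1] at h3
  have hev : Lowers e Z 0 (e v) := by
    intro a b hab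
    rw [he.mul]
    split_ifs with hb
    · rw [he.mul, if_neg (by omega)]; exact Z.zero_mem
    · rw [zero_mul]; exact Z.zero_mem
  have hp0 : Lowers e Z 0 (φ p) := by
    have : φ p = (φ p - e v * φ 1) + e v * φ 1 := by abel
    rw [this]
    apply (h3.mono (by norm_num)).add
    have := Lowers.mul he hev hf
    rwa [add_zero] at this
  have h4 : Lowers e Z 1 (φ p - e v * φ p) := by
    have h5 : φ p - e v * φ p = (φ p - e v * φ 1) - e v * (φ p - e v * φ 1) := by
      have : e v * e v = e v := by rw [he.mul, if_pos rfl]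
      rw [mul_sub, ← mul_assoc, this]; abel
    rw [h5]
    have := Lowers.mul he hev h3
    rw [zero_add] at this
    exact h3.sub this
  set u := φ p * (φ p - e v * φ p) with hu
  have hu1 : Lowers e Z 1 u := by
    have := Lowers.mul he hp0 h4
    rwa [zero_add] at this
  obtain ⟨m, hm⟩ := Lowers.isNilpotent he hZ hu1
  have hpp : φ p * φ p = φ p := by rw [← hφ, hp]
  have hup : u * φ p = u := by
    rw [hu, mul_assoc, sub_mul, mul_assoc, hpp]
  have h6 : (1 - u) * φ p = φ p * e v * φ p := by
    rw [sub_mul, one_mul, hup, hu, mul_sub, hpp, mul_assoc]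
    abel
  have h7 : (∑ i ∈ Finset.range m, u ^ i) * (1 - u) = 1 := by
    have := mul_neg_geom_sum u m
    have h8 := geom_sum_mul_neg u m
    rw [h8, hm, sub_zero]
  refine ⟨(∑ i ∈ Finset.range m, u ^ i) * φ p, ?_⟩
  calc φ p = 1 * φ p := (one_mul _).symm
    _ = (∑ i ∈ Finset.range m, u ^ i) * ((1 - u) * φ p) := by rw [← mul_assoc, h7]
    _ = _ := by rw [h6]; simp only [mul_assoc]

end factor

/-! ### Nil ideals -/

section nil

variable {E : Type*} [Ring E]

lemma nil_sup {A B : TwoSidedIdeal E} (hA : ∀ a ∈ A, IsNilpotent a)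
    (hB : ∀ b ∈ B, IsNilpotent b) : ∀ z ∈ A ⊔ B, IsNilpotent z := by
  intro z hz
  rw [TwoSidedIdeal.mem_sup] at hz
  obtain ⟨a, ha, b, hb, rfl⟩ := hz
  obtain ⟨n, hn⟩ := hA a ha
  have h1 : ∀ n : ℕ, (a + b) ^ n - a ^ n ∈ B := by
    intro n
    induction n with
    | zero => rw [pow_zero, pow_zero, sub_self]; exact B.zero_mem
    | succ n ih =>
      have : (a + b) ^ (n + 1) - a ^ (n + 1) = ((a + b) ^ n - a ^ n) * (a + b) + a ^ n * b := by
        rw [pow_succ, pow_succ]; noncomm_ring
      rw [this]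
      exact B.add_mem (B.mul_mem_right _ _ ih) (B.mul_mem_left _ _ hb)
  have h2 := h1 n
  rw [hn, sub_zero] at h2
  obtain ⟨m, hm⟩ := hB _ h2
  exact ⟨n * m, by rw [pow_mul, hm]⟩

lemma nil_bot : ∀ z ∈ (⊥ : TwoSidedIdeal E), IsNilpotent z := by
  intro z hz
  rw [TwoSidedIdeal.mem_bot] at hz
  rw [hz]
  exact IsNilpotent.zero

lemma nil_finset_sup {ι : Type*} (s : Finset ι) (A : ι → TwoSidedIdeal E)
    (hA : ∀ i ∈ s, ∀ a ∈ A i, IsNilpotent a) : ∀ z ∈ s.sup A, IsNilpotent z := by
  classical
  induction s using Finset.induction_on with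
  | empty => rw [Finset.sup_empty]; exact nil_bot
  | insert i s _ ih =>
    rw [Finset.sup_insert]
    exact nil_sup (hA i (Finset.mem_insert_self i s))
      (ih fun j hj => hA j (Finset.mem_insert_of_mem hj))

/-- The product of the elements of a list of `m` elements of `p J p` is zero. -/
def NilCorner (J : TwoSidedIdeal E) (p : E) (m : ℕ) : Prop :=
  ∀ l : List E, l.length = m → (∀ r ∈ l, r ∈ J ∧ p * r = r ∧ r * p = r) → l.prod = 0

/-- The ideal `E p J`. -/
def idealL (J : TwoSidedIdeal E) (p : E) : TwoSidedIdeal E :=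
  TwoSidedIdeal.mk' (AddSubgroup.closure {z | ∃ a, ∃ j ∈ J, z = a * p * j} : Set E)
    (zero_mem _) (fun hx hy => add_mem hx hy) (fun hx => neg_mem hx)
    (fun {x y} hy => by
      induction hy using AddSubgroup.closure_induction with
      | mem y hy =>
        obtain ⟨a, j, hj, rfl⟩ := hy
        exact AddSubgroup.subset_closure ⟨x * a, j, hj, by simp only [mul_assoc]⟩
      | zero => rw [mul_zero]; exact zero_mem _
      | add y z _ _ h1 h2 => rw [mul_add]; exact add_mem h1 h2
      | neg y _ h1 => rw [mul_neg]; exact neg_mem h1)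
    (fun {x y} hx => by
      induction hx using AddSubgroup.closure_induction with
      | mem x hx =>
        obtain ⟨a, j, hj, rfl⟩ := hx
        exact AddSubgroup.subset_closure ⟨a, j * y, J.mul_mem_right _ _ hj, by
          simp only [mul_assoc]⟩
      | zero => rw [zero_mul]; exact zero_mem _
      | add y z _ _ h1 h2 => rw [add_mul]; exact add_mem h1 h2
      | neg y _ h1 => rw [neg_mul]; exact neg_mem h1)

/-- The ideal `J p E`. -/
def idealR (J : TwoSidedIdeal E) (p : E) : TwoSidedIdeal E :=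
  TwoSidedIdeal.mk' (AddSubgroup.closure {z | ∃ a, ∃ j ∈ J, z = j * p * a} : Set E)
    (zero_mem _) (fun hx hy => add_mem hx hy) (fun hx => neg_mem hx)
    (fun {x y} hy => by
      induction hy using AddSubgroup.closure_induction with
      | mem y hy =>
        obtain ⟨a, j, hj, rfl⟩ := hy
        exact AddSubgroup.subset_closure ⟨a, x * j, J.mul_mem_left _ _ hj, by
          simp only [mul_assoc]⟩
      | zero => rw [mul_zero]; exact zero_mem _
      | add y z _ _ h1 h2 => rw [mul_add]; exact add_mem h1 h2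
      | neg y _ h1 => rw [mul_neg]; exact neg_mem h1)
    (fun {x y} hx => by
      induction hx using AddSubgroup.closure_induction with
      | mem x hx =>
        obtain ⟨a, j, hj, rfl⟩ := hx
        exact AddSubgroup.subset_closure ⟨a * y, j, hj, by simp only [mul_assoc]⟩
      | zero => rw [zero_mul]; exact zero_mem _
      | add y z _ _ h1 h2 => rw [add_mul]; exact add_mem h1 h2
      | neg y _ h1 => rw [neg_mul]; exact neg_mem h1)

lemma mem_idealL {J : TwoSidedIdeal E} {p a j : E} (hj : j ∈ J) : a * p * j ∈ idealL J p := by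
  rw [idealL, TwoSidedIdeal.mem_mk']
  exact AddSubgroup.subset_closure ⟨a, j, hj, rfl⟩

lemma mem_idealR {J : TwoSidedIdeal E} {p a j : E} (hj : j ∈ J) : j * p * a ∈ idealR J p := by
  rw [idealR, TwoSidedIdeal.mem_mk']
  exact AddSubgroup.subset_closure ⟨a, j, hj, rfl⟩

variable {J : TwoSidedIdeal E} {p : E} {m : ℕ}

lemma closure_mul_mem {S T : Set E} {U : AddSubgroup E} (h : ∀ s ∈ S, ∀ t ∈ T, s * t ∈ U) :
    ∀ x ∈ AddSubgroup.closure S, ∀ y ∈ AddSubgroup.closure T, x * y ∈ U := by
  intro x hx y hy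
  induction hx using AddSubgroup.closure_induction with
  | mem x hx =>
    induction hy using AddSubgroup.closure_induction with
    | mem y hy => exact h x hx y hy
    | zero => rw [mul_zero]; exact zero_mem _
    | add y z _ _ h1 h2 => rw [mul_add]; exact add_mem h1 h2
    | neg y _ h1 => rw [mul_neg]; exact neg_mem h1
  | zero => rw [zero_mul]; exact zero_mem _
  | add x z _ _ h1 h2 => rw [add_mul]; exact add_mem h1 h2
  | neg x _ h1 => rw [neg_mul]; exact neg_mem h1

lemma nil_idealL (hp : p * p = p) (hm : NilCorner J p m) :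
    ∀ z ∈ idealL J p, IsNilpotent z := by
  intro z hz
  rw [idealL, TwoSidedIdeal.mem_mk'] at hz
  -- `T k`: sums of elements `a (product of k elements of p J p) j`
  have key : ∀ k : ℕ, z ^ (k + 1) ∈ AddSubgroup.closure {y : E | ∃ (a : E) (l : List E) (j : E),
      l.length = k ∧ (∀ r ∈ l, r ∈ J ∧ p * r = r ∧ r * p = r) ∧ j ∈ J ∧
      y = a * p * l.prod * p * j} := by
    intro k
    induction k with
    | zero =>
      rw [zero_add, pow_one]
      have hz' : z ∈ AddSubgroup.closure {z | ∃ a, ∃ j ∈ J, z = a * p * j} := hz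
      refine AddSubgroup.closure_mono ?_ hz'
      rintro y ⟨a, j, hj, rfl⟩
      exact ⟨a, [], j, rfl, by simp, hj, by
        rw [List.prod_nil, mul_one, mul_assoc a p p, hp]⟩
    | succ k ih =>
      rw [pow_succ]
      have hz' : z ∈ AddSubgroup.closure {z | ∃ a, ∃ j ∈ J, z = a * p * j} := hz
      refine closure_mul_mem ?_ _ ih _ hz'
      · rintro u ⟨a, l, j, hl, hlr, hj, rfl⟩ w ⟨a', j', hj', rfl⟩
        refine AddSubgroup.subset_closure ⟨a, l ++ [p * (j * a') * p], j', by simp [hl], ?_,
          hj', ?_⟩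
        · intro r hr
          rw [List.mem_append, List.mem_singleton] at hr
          rcases hr with hr | hr
          · exact hlr r hr
          · rw [hr]
            refine ⟨J.mul_mem_right _ _ (J.mul_mem_left _ _ (J.mul_mem_right _ _ hj)), ?_, ?_⟩
            · rw [← mul_assoc, ← mul_assoc, hp]
            · rw [mul_assoc _ p p, hp]
        · rw [List.prod_append, List.prod_singleton]
          have : ∀ L : E, a * p * (L * (p * (j * a') * p)) * p * j' =
              a * p * L * p * j * (a' * (p * p) * j') := by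
            intro L; rw [hp]
            calc a * p * (L * (p * (j * a') * p)) * p * j'
                = a * p * L * p * j * (a' * (p * p) * j') := by simp only [mul_assoc]
              _ = _ := by rw [hp]
          rw [this, hp]
  refine ⟨m + 1, ?_⟩
  have h2 : AddSubgroup.closure {y : E | ∃ (a : E) (l : List E) (j : E),
      l.length = m ∧ (∀ r ∈ l, r ∈ J ∧ p * r = r ∧ r * p = r) ∧ j ∈ J ∧
      y = a * p * l.prod * p * j} ≤ ⊥ := by
    rw [AddSubgroup.closure_le]
    rintro y ⟨a, l, j, hl, hlr, hj, rfl⟩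
    rw [hm l hl hlr, mul_zero, zero_mul, zero_mul]
    exact zero_mem _
  exact (AddSubgroup.mem_bot).1 (h2 (key m))

lemma nil_idealR (hp : p * p = p) (hm : NilCorner J p m) :
    ∀ z ∈ idealR J p, IsNilpotent z := by
  intro z hz
  rw [idealR, TwoSidedIdeal.mem_mk'] at hz
  have key : ∀ k : ℕ, z ^ (k + 1) ∈ AddSubgroup.closure {y : E | ∃ (a : E) (l : List E) (j : E),
      l.length = k ∧ (∀ r ∈ l, r ∈ J ∧ p * r = r ∧ r * p = r) ∧ j ∈ J ∧
      y = j * p * l.prod * p * a} := by
    intro k
    induction k with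
    | zero =>
      rw [zero_add, pow_one]
      have hz' : z ∈ AddSubgroup.closure {z | ∃ a, ∃ j ∈ J, z = j * p * a} := hz
      refine AddSubgroup.closure_mono ?_ hz'
      rintro y ⟨a, j, hj, rfl⟩
      exact ⟨a, [], j, rfl, by simp, hj, by
        rw [List.prod_nil, mul_one, mul_assoc j p p, hp]⟩
    | succ k ih =>
      rw [pow_succ']
      have hz' : z ∈ AddSubgroup.closure {z | ∃ a, ∃ j ∈ J, z = j * p * a} := hz
      refine closure_mul_mem ?_ _ hz' _ ih
      · rintro w ⟨a', j', hj', rfl⟩ u ⟨a, l, j, hl, hlr, hj, rfl⟩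
        refine AddSubgroup.subset_closure ⟨a, (p * (a' * j) * p) :: l, j', by simp [hl], ?_,
          hj', ?_⟩
        · intro r hr
          rw [List.mem_cons] at hr
          rcases hr with hr | hr
          · rw [hr]
            refine ⟨J.mul_mem_right _ _ (J.mul_mem_left _ _ (J.mul_mem_left _ _ hj)), ?_, ?_⟩
            · rw [← mul_assoc, ← mul_assoc, hp]
            · rw [mul_assoc _ p p, hp]
          · exact hlr r hr
        · rw [List.prod_cons]
          have : ∀ L : E, j' * p * (p * (a' * j) * p * L) * p * a =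
              j' * (p * p) * a' * (j * p * L * p * a) := by
            intro L
            simp only [mul_assoc]
          rw [this, hp]
  refine ⟨m + 1, ?_⟩
  have h2 : AddSubgroup.closure {y : E | ∃ (a : E) (l : List E) (j : E),
      l.length = m ∧ (∀ r ∈ l, r ∈ J ∧ p * r = r ∧ r * p = r) ∧ j ∈ J ∧
      y = j * p * l.prod * p * a} ≤ ⊥ := by
    rw [AddSubgroup.closure_le]
    rintro y ⟨a, l, j, hl, hlr, hj, rfl⟩
    rw [hm l hl hlr, mul_zero, zero_mul, zero_mul]
    exact zero_mem _
  exact (AddSubgroup.mem_bot).1 (h2 (key m))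

end nil

end Pool.Agent.Y109
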